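import Mathlib

namespace Pool.Agent.Results.MP_75ab16_co.NowhereStackable

/-- `CupMove G C C'`: the configuration `C'` arises from the configuration `C` by one cup stacking
move `u ↦ v` on the graph `G`: both `u` and `v` carry at least one cup, `dist u v = C u`, every cup
on `u` is transferred to `v`, and nothing else changes. -/
def CupMove {V : Type} (G : SimpleGraph V) (C C' : V → ℕ) : Prop :=
  ∃ u v : V, 1 ≤ C u ∧ 1 ≤ C v ∧ G.dist u v = C u ∧
    C' u = 0 ∧ C' v = C u + C v ∧ ∀ w, w ≠ u → w ≠ v → C' w = C w

/-- `StackableOnto G r`: starting from one cup on each vertex, some finite sequence of cup stacking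
moves ends with all the cups on `r`. -/
def StackableOnto {V : Type} [Fintype V] (G : SimpleGraph V) (r : V) : Prop :=
  ∃ C : V → ℕ, Relation.ReflTransGen (CupMove G) (fun _ => 1) C ∧
    C r = Fintype.card V ∧ ∀ w, w ≠ r → C w = 0

/-- The invariant behind the obstruction. -/
def Inv {V : Type} (r : V) (D N : Finset V) (C : V → ℕ) : Prop :=
  C r = 0 ∨ (∃ v, v ≠ r ∧ 3 ≤ C v) ∨
    (N.filter (fun s => C s = 1)).card < (D.filter (fun s => C s = 1)).card

theorem inv_step {V : Type} (G : SimpleGraph V)
    (hdiam : ∀ u v, G.dist u v ≤ 2) (r : V) (D N : Finset V)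
    (hrD : r ∉ D) (hrN : r ∉ N) (hDN : Disjoint D N)
    (hN : ∀ x ∈ D, ∀ y, G.Adj x y → y ∈ N) (C C' : V → ℕ) (h : Inv r D N C)
    (hm : CupMove G C C') : Inv r D N C' := by
  classical
  obtain ⟨u, v, hu, hv, hd, hu', hv', hw⟩ := hm
  have huv : u ≠ v := by
    rintro rfl
    rw [SimpleGraph.dist_self] at hd
    omega
  rcases h with h | ⟨w, hwr, hw3⟩ | h
  · left
    have h1 : r ≠ u := by rintro rfl; omega
    have h2 : r ≠ v := by rintro rfl; omega
    rw [hw r h1 h2, h]
  · right; left
    refine ⟨w, hwr, ?_⟩
    have h1 : w ≠ u := by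
      rintro rfl
      have := hdiam w v
      omega
    by_cases h2 : w = v
    · subst h2
      rw [hv']
      omega
    · rw [hw w h1 h2]
      exact hw3
  · by_cases hur : u = r
    · left
      rw [← hur, hu']
    by_cases hvr : v = r
    · -- the stack jumps onto `r`
      right; right
      have hNsub : (N.filter (fun s => C' s = 1)) ⊆ (N.filter (fun s => C s = 1)) := by
        intro s hs
        rw [Finset.mem_filter] at hs ⊢
        have hsr : s ≠ v := by
          rintro rfl
          exact hrN (hvr ▸ hs.1)
        have hsu : s ≠ u := by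
          rintro rfl
          rw [hu'] at hs
          omega
        refine ⟨hs.1, ?_⟩
        rw [← hw s hsu hsr]
        exact hs.2
      have hDsub : (D.filter (fun s => C s = 1)) ⊆ (D.filter (fun s => C' s = 1)) := by
        intro s hs
        rw [Finset.mem_filter] at hs ⊢
        have hsr : s ≠ v := by
          rintro rfl
          exact hrD (hvr ▸ hs.1)
        have hsu : s ≠ u := by
          rintro rfl
          rw [hs.2] at hd
          have hadj : G.Adj s v := SimpleGraph.dist_eq_one_iff_adj.mp hd
          exact hrN (hvr ▸ hN s hs.1 v hadj)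
        refine ⟨hs.1, ?_⟩
        rw [hw s hsu hsr]
        exact hs.2
      exact lt_of_le_of_lt (Finset.card_le_card hNsub) (lt_of_lt_of_le h (Finset.card_le_card hDsub))
    by_cases h3 : 3 ≤ C u + C v
    · right; left
      exact ⟨v, hvr, by rw [hv']; exact h3⟩
    have hCu : C u = 1 := by omega
    have hCv : C v = 1 := by omega
    have hC'v : C' v = 2 := by rw [hv']; omega
    rw [hCu] at hd
    have hadj : G.Adj u v := SimpleGraph.dist_eq_one_iff_adj.mp hd
    right; right
    have key : ∀ S : Finset V, (S.filter (fun s => C' s = 1)) =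
        ((S.filter (fun s => C s = 1)).erase u).erase v := by
      intro S
      ext s
      simp only [Finset.mem_filter, Finset.mem_erase]
      by_cases hsu : s = u
      · subst hsu
        simp [hu']
      by_cases hsv : s = v
      · subst hsv
        simp [hC'v]
      rw [hw s hsu hsv]
      tauto
    rw [key D, key N]
    by_cases huD : u ∈ D
    · have hvN : v ∈ N := hN u huD v hadj
      have hvD : v ∉ D := fun h' => (Finset.disjoint_left.mp hDN h') hvN
      have huN : u ∉ N := Finset.disjoint_left.mp hDN huD
      rw [Finset.erase_eq_of_notMem (s := (D.filter (fun s => C s = 1)).erase u)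
        (by simp [hvD])]
      rw [Finset.erase_eq_of_notMem (s := N.filter (fun s => C s = 1)) (a := u)
        (by simp [huN])]
      rw [Finset.card_erase_of_mem (by simp [hvN, hCv]), Finset.card_erase_of_mem
        (by simp [huD, hCu])]
      have : 0 < (N.filter (fun s => C s = 1)).card := Finset.card_pos.mpr ⟨v, by simp [hvN, hCv]⟩
      omega
    · by_cases hvD : v ∈ D
      · have huN : u ∈ N := hN v hvD u hadj.symm
        have hvN : v ∉ N := Finset.disjoint_left.mp hDN hvD
        rw [Finset.erase_eq_of_notMem (s := D.filter (fun s => C s = 1)) (a := u)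
          (by simp [huD])]
        rw [Finset.erase_eq_of_notMem (s := (N.filter (fun s => C s = 1)).erase u) (a := v)
          (by simp [hvN])]
        rw [Finset.card_erase_of_mem (by simp [huN, hCu]), Finset.card_erase_of_mem
          (by simp [hvD, hCv])]
        have : 0 < (N.filter (fun s => C s = 1)).card := Finset.card_pos.mpr ⟨u, by simp [huN, hCu]⟩
        omega
      · rw [Finset.erase_eq_of_notMem (s := (D.filter (fun s => C s = 1)).erase u)
          (by simp [hvD]), Finset.erase_eq_of_notMem (s := D.filter (fun s => C s = 1))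
          (by simp [huD])]
        refine lt_of_le_of_lt (Finset.card_le_card ?_) h
        exact (Finset.erase_subset _ _).trans (Finset.erase_subset _ _)

/-- In a graph in which all distances are at most two, a set `D` of vertices which are neither equal nor
adjacent to `r`, is independent, and has fewer neighbours than elements prevents stacking onto `r`. -/
theorem not_stackable {V : Type} [Fintype V] (G : SimpleGraph V)
    (hdiam : ∀ u v, G.dist u v ≤ 2) (r : V) (D N : Finset V)
    (hrD : r ∉ D) (hrN : r ∉ N) (hDN : Disjoint D N)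
    (hN : ∀ x ∈ D, ∀ y, G.Adj x y → y ∈ N) (hcard : N.card < D.card) :
    ¬ StackableOnto G r := by
  classical
  rintro ⟨C, hC, hCr, hC0⟩
  have hinv : Inv r D N C := by
    have : ∀ C', Relation.ReflTransGen (CupMove G) (fun _ => 1) C' → Inv r D N C' := by
      intro C' h
      induction h with
      | refl =>
        right; right
        simpa using hcard
      | tail _ hstep ih =>
        exact inv_step G hdiam r D N hrD hrN hDN hN _ _ ih hstep
    exact this C hC
  rcases hinv with h | ⟨v, hv, h3⟩ | h
  · rw [hCr] at h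
    have : 0 < Fintype.card V := Fintype.card_pos_iff.mpr ⟨r⟩
    omega
  · rw [hC0 v hv] at h3
    omega
  · have : (D.filter (fun s => C s = 1)) = ∅ := by
      rw [Finset.filter_eq_empty_iff]
      intro x hx hx1
      have : x ≠ r := by rintro rfl; exact hrD hx
      rw [hC0 x this] at hx1
      omega
    rw [this] at h
    simp at h

/-- The graph on `n` vertices: `0, 1, 2` form a triangle and every `k ≥ 3` is adjacent to the two
elements of `{0, 1, 2}` different from `k % 3`. -/
def X (n : ℕ) : SimpleGraph (Fin n) :=
  SimpleGraph.fromRel (fun u v : Fin n => u.val < 3 ∧ (v.val < 3 ∨ v.val % 3 ≠ u.val))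

theorem X_adj {n : ℕ} (u v : Fin n) : (X n).Adj u v ↔ u.val ≠ v.val ∧
    ((u.val < 3 ∧ (v.val < 3 ∨ v.val % 3 ≠ u.val)) ∨
      (v.val < 3 ∧ (u.val < 3 ∨ u.val % 3 ≠ v.val))) := by
  unfold X
  rw [SimpleGraph.fromRel_adj]
  rw [Ne, Fin.ext_iff]

theorem X_common {n : ℕ} (hn : 12 ≤ n) (u v : Fin n) (huv : u ≠ v) :
    ∃ w, (X n).Adj u w ∧ (X n).Adj w v := by
  have huv' : u.val ≠ v.val := fun h => huv (Fin.ext h)
  by_cases h1 : u.val % 3 ≠ 0 ∧ v.val % 3 ≠ 0
  · refine ⟨⟨0, by omega⟩, ?_, ?_⟩ <;> rw [X_adj] <;> dsimp only <;> omega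
  by_cases h2 : u.val % 3 ≠ 1 ∧ v.val % 3 ≠ 1
  · refine ⟨⟨1, by omega⟩, ?_, ?_⟩ <;> rw [X_adj] <;> dsimp only <;> omega
  · refine ⟨⟨2, by omega⟩, ?_, ?_⟩ <;> rw [X_adj] <;> dsimp only <;> omega

theorem X_dist {n : ℕ} (hn : 12 ≤ n) (u v : Fin n) : ∃ p : (X n).Walk u v, p.length ≤ 2 := by
  by_cases huv : u = v
  · subst huv
    exact ⟨SimpleGraph.Walk.nil, by simp⟩
  by_cases hadj : (X n).Adj u v
  · exact ⟨SimpleGraph.Walk.cons hadj SimpleGraph.Walk.nil, by simp⟩
  obtain ⟨w, h1, h2⟩ := X_common hn u v huv
  exact ⟨SimpleGraph.Walk.cons h1 (SimpleGraph.Walk.cons h2 SimpleGraph.Walk.nil), by simp⟩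

theorem X_connected {n : ℕ} (hn : 12 ≤ n) : (X n).Connected := by
  have : Nonempty (Fin n) := ⟨⟨0, by omega⟩⟩
  rw [SimpleGraph.connected_iff]
  refine ⟨?_, inferInstance⟩
  intro u v
  obtain ⟨p, _⟩ := X_dist hn u v
  exact ⟨p⟩

theorem X_diam {n : ℕ} (hn : 12 ≤ n) (u v : Fin n) : (X n).dist u v ≤ 2 := by
  obtain ⟨p, hp⟩ := X_dist hn u v
  exact (SimpleGraph.dist_le p).trans hp

theorem X_not_acyclic {n : ℕ} (hn : 12 ≤ n) : ¬ (X n).IsAcyclic := by
  classical
  intro hac
  have : ∃ s : Finset (Fin n), (X n).IsNClique 3 s := by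
    refine ⟨{⟨0, by omega⟩, ⟨1, by omega⟩, ⟨2, by omega⟩}, ?_⟩
    rw [SimpleGraph.is3Clique_triple_iff]
    refine ⟨?_, ?_, ?_⟩ <;> rw [X_adj] <;> dsimp only <;> omega
  rw [SimpleGraph.is3Clique_iff_exists_cycle_length_three] at this
  obtain ⟨u, w, hw, _⟩ := this
  exact hac w hw

theorem X_not_stackable {n : ℕ} (hn : 12 ≤ n) (r : Fin n) : ¬ StackableOnto (X n) r := by
  classical
  by_cases hr : r.val < 3
  · -- `D` consists of three vertices `k ≥ 3` with `k % 3 = r`
    refine not_stackable (X n) (X_diam hn) r
      ({⟨r.val + 3, by omega⟩, ⟨r.val + 6, by omega⟩, ⟨r.val + 9, by omega⟩} : Finset (Fin n))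
      ((Finset.univ.filter (fun v : Fin n => v.val < 3)).erase r) ?_ ?_ ?_ ?_ ?_
    · simp [Fin.ext_iff]
    · simp
    · rw [Finset.disjoint_left]
      intro a ha
      simp only [Finset.mem_insert, Finset.mem_singleton, Fin.ext_iff] at ha
      simp only [Finset.mem_erase, Finset.mem_filter, Finset.mem_univ, true_and, not_and, not_lt]
      intro _
      omega
    · intro x hx y hxy
      simp only [Finset.mem_insert, Finset.mem_singleton, Fin.ext_iff] at hx
      rw [X_adj] at hxy
      simp only [Finset.mem_erase, Finset.mem_filter, Finset.mem_univ, true_and, Ne, Fin.ext_iff]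
      omega
    · rw [Finset.card_erase_of_mem (by simp [hr])]
      have h3 : (Finset.univ.filter (fun v : Fin n => v.val < 3)).card ≤ 3 := by
        have : (Finset.univ.filter (fun v : Fin n => v.val < 3)).card
            = ((Finset.univ.filter (fun v : Fin n => v.val < 3)).image Fin.val).card := by
          rw [Finset.card_image_of_injective _ Fin.val_injective]
        rw [this]
        refine (Finset.card_le_card (t := Finset.range 3) ?_).trans (by simp)
        intro a ha
        simp only [Finset.mem_image, Finset.mem_filter, Finset.mem_univ, true_and] at ha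
        obtain ⟨b, hb, rfl⟩ := ha
        simpa using hb
      have hD : ({⟨r.val + 3, by omega⟩, ⟨r.val + 6, by omega⟩, ⟨r.val + 9, by omega⟩} :
          Finset (Fin n)).card = 3 := by
        rw [Finset.card_eq_three]
        refine ⟨_, _, _, ?_, ?_, ?_, rfl⟩ <;> simp [Fin.ext_iff]
      rw [hD]
      omega
  · -- `D` consists of the vertices `3, ..., 11` other than `r`
    refine not_stackable (X n) (X_diam hn) r
      ((Finset.univ.filter (fun v : Fin n => 3 ≤ v.val)).erase r)
      (Finset.univ.filter (fun v : Fin n => v.val < 3)) ?_ ?_ ?_ ?_ ?_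
    · simp
    · simpa using hr
    · rw [Finset.disjoint_left]
      intro a ha
      simp only [Finset.mem_erase, Finset.mem_filter, Finset.mem_univ, true_and] at ha ⊢
      omega
    · intro x hx y hxy
      simp only [Finset.mem_erase, Finset.mem_filter, Finset.mem_univ, true_and] at hx ⊢
      rw [X_adj] at hxy
      omega
    · rw [Finset.card_erase_of_mem (by simp; omega)]
      have h3 : (Finset.univ.filter (fun v : Fin n => v.val < 3)).card ≤ 3 := by
        have : (Finset.univ.filter (fun v : Fin n => v.val < 3)).card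
            = ((Finset.univ.filter (fun v : Fin n => v.val < 3)).image Fin.val).card := by
          rw [Finset.card_image_of_injective _ Fin.val_injective]
        rw [this]
        refine (Finset.card_le_card (t := Finset.range 3) ?_).trans (by simp)
        intro a ha
        simp only [Finset.mem_image, Finset.mem_filter, Finset.mem_univ, true_and] at ha
        obtain ⟨b, hb, rfl⟩ := ha
        simpa using hb
      have htot : (Finset.univ.filter (fun v : Fin n => v.val < 3)).card +
          (Finset.univ.filter (fun v : Fin n => ¬ v.val < 3)).card = n := by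
        rw [Finset.card_filter_add_card_filter_not]
        simp
      have heq : (Finset.univ.filter (fun v : Fin n => ¬ v.val < 3)) =
          (Finset.univ.filter (fun v : Fin n => 3 ≤ v.val)) := by
        ext a
        simp
      rw [heq] at htot
      omega

/-- For every `n ≥ 12` there is a connected graph on `n` vertices which is not a tree and which is
not `r`-stackable for any vertex `r`. -/
theorem result : ∀ n : ℕ, 12 ≤ n → ∃ G : SimpleGraph (Fin n),
    G.Connected ∧ ¬ G.IsAcyclic ∧ ∀ r : Fin n, ¬ StackableOnto G r := by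
  intro n hn
  exact ⟨X n, X_connected hn, X_not_acyclic hn, X_not_stackable hn⟩

end Pool.Agent.Results.MP_75ab16_co.NowhereStackable
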